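import Pool.Agent.Lib.MP_53c676_al.AltMain

namespace Pool.Agent.Results.MP_53c676_al.AltPeriodic

open Pool.Agent.Lib.MP_53c676_al

/-- For every bounded sequence of degrees `k n ≥ 5` the group generated by the rooted and the
directed copies of alternating groups is a finitely generated just infinite branch group on the
tree with degrees `k`, and it is minimal iff `k` is eventually periodic. -/
theorem result (k : ℕ → ℕ) (h5 : ∀ n, 5 ≤ k n) (hb : ∃ K, ∀ n, k n ≤ K) :
    Group.FG (altGroup k) ∧ IsJustInfinite (altGroup k) ∧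
      IsBranchAction k (altGroup k).subtype ∧
      (IsMinimalGroup (altGroup k) ↔ ∃ p > 0, ∃ N, ∀ n ≥ N, k (n + p) = k n) := by
  obtain ⟨K, hK⟩ := hb
  exact ⟨(Group.fg_iff_subgroup_fg _).2 (altGroup_fg hK), gam_ji ⟨k, h5⟩, gam_branch ⟨k, h5⟩,
    gam_minimal_iff ⟨k, h5⟩⟩

end Pool.Agent.Results.MP_53c676_al.AltPeriodic
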