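import Pool.Agent.Lib.MP_53c676_al.SX.Bound

namespace Pool.Agent.Results.MP_53c676_al.BoundedFactors

open Pool.Agent.Lib.MP_53c676_al

universe u

/-- For a minimal just infinite branch group there is one bound `D` such that every level
stabilizer is reached from `G` by a subnormal chain all of whose steps have index at most `D`;
that is, the finite groups `G / St(n)` have composition factors of bounded order. -/
theorem result (G : Type u) [Group G] (hJ : IsJustInfinite G) (k : ℕ → ℕ)
    (ρ : G →* Equiv.Perm (Vertex k)) (hρ : IsBranchAction k ρ) (hG : IsMinimalGroup G) :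
    ∃ D : ℕ, ∀ n : ℕ, Relation.ReflTransGen
      (fun A B : Subgroup G =>
        B ≤ A ∧ (B.subgroupOf A).Normal ∧ B.relIndex A ≠ 0 ∧ B.relIndex A ≤ D)
      ⊤ (⨅ v : {v : Vertex k // v.1.length = n},
        (MulAction.stabilizer (Equiv.Perm (Vertex k)) v.1).comap ρ) := by
  obtain ⟨D, hD⟩ := bounded_factors hρ hJ hG
  refine ⟨D, fun n => ?_⟩
  have h : (⨅ v : {v : Vertex k // v.1.length = n},
      (MulAction.stabilizer (Equiv.Perm (Vertex k)) v.1).comap ρ) = stL ρ n := by
    ext g
    rw [Subgroup.mem_iInf]
    exact ⟨fun hg v hv => hg ⟨v, hv⟩, fun hg v => hg v.1 v.2⟩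
  rw [h]
  exact hD n

end Pool.Agent.Results.MP_53c676_al.BoundedFactors
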