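import Pool.Agent.Lib.MP_53c676_al.SX.GriMain

namespace Pool.Agent.Results.MP_53c676_al.GrigorchukOmega

open Pool.Agent.Lib.MP_53c676_al

/-- For a sequence `ω` over `{0, 1, 2}` that is not eventually constant, the Grigorchuk group
`G_ω` is minimal in the largeness order iff `ω` is eventually periodic. -/
theorem result (ω : ℕ → Fin 3) (hω : ¬ ∃ (i : Fin 3) (N : ℕ), ∀ n ≥ N, ω n = i) :
    IsMinimalGroup (griGroup ω) ↔ ∃ p > 0, ∃ N, ∀ n ≥ N, ω (n + p) = ω n := by
  refine gri_minimal_iff fun i N => ?_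
  by_contra hcon
  push Not at hcon
  exact hω ⟨i, N, hcon⟩

end Pool.Agent.Results.MP_53c676_al.GrigorchukOmega
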