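import Pool.Agent.Lib.MP_53c676_al.SX.Period

namespace Pool.Agent.Results.MP_53c676_al.TypesCriterion

open Pool.Agent.Lib.MP_53c676_al

universe u

/-- Minimality of a just infinite branch group `G` (finitely generated or not): it holds iff
two different finite powers of `G` are abstractly commensurable, iff `G` is commensurable with
`RiSt(u)^j` for some `j` smaller than the size of the level of `u`, iff `G` is commensurable
with `G^b` for some `b ≥ 2`, iff two rigid stabilizers of vertices on different levels are
commensurable, iff the rigid stabilizers fall into finitely many commensurability classes. -/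
theorem result (G : Type u) [Group G] (hJ : IsJustInfinite G) (k : ℕ → ℕ)
    (ρ : G →* Equiv.Perm (Vertex k)) (hρ : IsBranchAction k ρ) :
    List.TFAE [IsMinimalGroup G,
      ∃ a b : ℕ, a ≠ b ∧ AbsComm (Fin a → G) (Fin b → G),
      ∃ (u : Vertex k) (j : ℕ), j < Nat.card {v : Vertex k // v.1.length = u.1.length} ∧
        AbsComm G (Fin j → rist ρ u),
      ∃ b : ℕ, 2 ≤ b ∧ AbsComm G (Fin b → G),
      ∃ u v : Vertex k, u.1.length ≠ v.1.length ∧ AbsComm (rist ρ u) (rist ρ v),
      ∃ n : ℕ, ∀ u : Vertex k, ∃ v : Vertex k, v.1.length ≤ n ∧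
        AbsComm (rist ρ u) (rist ρ v)] :=
  criterion_types hρ hJ

end Pool.Agent.Results.MP_53c676_al.TypesCriterion
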